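import Pool.Agent.W649.ZL.Supp

/-! # The rank of an element supported on few cosets of a locally indicable subgroup -/

set_option autoImplicit false
set_option linter.unusedSectionVars false

open scoped InnerProductSpace InnerProduct ENNReal

namespace Pool.Agent.L0h7.UB

open Pool.Agent.W649.ZL

universe u w

section rest

variable {G : Type u} {I : Type w} [Group G]

open Classical in
theorem mem_rest (H : Subgroup G) (F : EE G I) :
    Memℓp (fun x : G × I => if x.1 ∈ H then F x else 0) 2 := by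
  rw [memlp_two_iff]
  have h := (memlp_two_iff _).1 F.2
  refine Summable.of_nonneg_of_le (fun _ => by positivity) (fun x => ?_) h
  split_ifs
  · exact le_rfl
  · simp

open Classical in
/-- restriction of a function to `H × I` -/
noncomputable def rest (H : Subgroup G) (F : EE G I) : EE G I := ⟨_, mem_rest H F⟩

open Classical in
theorem rest_apply (H : Subgroup G) (F : EE G I) (x : G × I) :
    rest H F x = if x.1 ∈ H then F x else 0 := rfl

theorem rest_sub (H : Subgroup G) (F F' : EE G I) : rest H (F - F') = rest H F - rest H F' := by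
  ext x
  change rest H (F - F') x = rest H F x - rest H F' x
  simp only [rest_apply]
  split_ifs
  · rfl
  · simp

theorem inner_rest (H : Subgroup G) (F F' : EE G I) : ⟪rest H F, F'⟫_ℂ = ⟪F, rest H F'⟫_ℂ := by
  rw [lp.inner_eq_tsum, lp.inner_eq_tsum]
  refine tsum_congr fun x => ?_
  rw [rest_apply, rest_apply]
  split_ifs
  · rfl
  · simp

theorem norm_rest_le (H : Subgroup G) (F : EE G I) : ‖rest H F‖ ≤ ‖F‖ := by
  have h0 : rest H (rest H F) = rest H F := by
    ext x
    rw [rest_apply, rest_apply]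
    split_ifs <;> rfl
  have h1 : ‖rest H F‖ ^ 2 ≤ ‖rest H F‖ * ‖F‖ := by
    have h2 : ⟪rest H F, rest H F⟫_ℂ = ⟪rest H F, F⟫_ℂ := by
      rw [← inner_rest, h0]
    rw [inner_self_eq_norm_sq_to_K] at h2
    have h3 := congrArg (fun z : ℂ => ‖z‖) h2
    simp only [norm_pow] at h3
    have h4 : ‖((‖rest H F‖ : ℝ) : ℂ)‖ = ‖rest H F‖ := by simp
    have h5 := norm_inner_le_norm (𝕜 := ℂ) (rest H F) F
    calc ‖rest H F‖ ^ 2 = ‖⟪rest H F, F⟫_ℂ‖ := by rw [← h3]; simp
      _ ≤ _ := h5
  by_cases h : ‖rest H F‖ = 0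
  · rw [h]; exact norm_nonneg _
  · have h6 : 0 < ‖rest H F‖ := lt_of_le_of_ne (norm_nonneg _) (Ne.symm h)
    rw [sq] at h1
    exact le_of_mul_le_mul_left h1 h6

/-- a closed subspace which is invariant under the restriction -/
theorem rest_closure (H : Subgroup G) {U : Submodule ℂ (EE G I)} (hU : ∀ F ∈ U, rest H F ∈ U) :
    ∀ F ∈ U.topologicalClosure, rest H F ∈ U.topologicalClosure := by
  intro F hF
  have hf' : F ∈ closure (U : Set (EE G I)) := by
    rw [← Submodule.topologicalClosure_coe]; exact hF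
  have : rest H F ∈ closure (U : Set (EE G I)) := by
    rw [Metric.mem_closure_iff] at hf' ⊢
    intro ε hε
    obtain ⟨b, hb, hd⟩ := hf' ε hε
    refine ⟨rest H b, hU b hb, ?_⟩
    rw [dist_eq_norm] at hd ⊢
    rw [← rest_sub]
    exact (norm_rest_le H _).trans_lt hd
  rw [← Submodule.topologicalClosure_coe] at this
  exact this

/-- the projections of the basis vectors at `1` are supported on `H` -/
theorem proj_rest (H : Subgroup G) {U : Submodule ℂ (EE G I)} [U.HasOrthogonalProjection]
    (hU : ∀ F ∈ U, rest H F ∈ U) (j : I) (x : G × I) (hx : x.1 ∉ H) :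
    U.starProjection (dl ((1 : G), j)) x = 0 := by
  classical
  set δ : EE G I := dl ((1 : G), j) with hδ
  have h1 : U.starProjection δ = rest H (U.starProjection δ) := by
    refine Submodule.eq_starProjection_of_mem_of_inner_eq_zero
      (hU _ (Submodule.starProjection_apply_mem _ _)) fun z hz => ?_
    have e1 : rest H δ = δ := by
      ext y
      rw [rest_apply]
      by_cases hy : y = ((1 : G), j)
      · rw [hy, if_pos H.one_mem]
      · rw [hδ, dl_apply_ne _ _ hy]
        simp
    have e2 : ⟪δ - rest H (U.starProjection δ), z⟫_ℂ = ⟪δ - U.starProjection δ, rest H z⟫_ℂ := by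
      rw [← inner_rest, rest_sub, e1]
    rw [e2]
    exact Submodule.starProjection_inner_eq_zero δ _ (hU z hz)
  rw [h1, rest_apply, if_neg hx]

end rest

section main

variable {G : Type u} {I : Type w} [Group G]

theorem proj_add {P Q : Submodule ℂ (EE G I)}
    (h : P ≤ Q) [P.HasOrthogonalProjection]
    [Q.HasOrthogonalProjection] [(Q ⊓ Pᗮ).HasOrthogonalProjection] (x : EE G I) :
    (Q ⊓ Pᗮ).starProjection x = Q.starProjection x - P.starProjection x := by
  have hPQ : P.starProjection (Q.starProjection x) = P.starProjection x := by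
    have := Submodule.starProjection_comp_starProjection_of_le h
    rw [← ContinuousLinearMap.comp_apply, this]
  symm
  rw [eq_comm]
  apply Submodule.eq_starProjection_of_mem_of_inner_eq_zero
  · refine ⟨Q.sub_mem (Submodule.starProjection_apply_mem _ _)
      (h (Submodule.starProjection_apply_mem _ _)), ?_⟩
    rw [← hPQ]
    exact Submodule.sub_starProjection_mem_orthogonal _
  · intro w hw
    have a1 : ⟪x - Q.starProjection x, w⟫_ℂ = 0 :=
      Submodule.starProjection_inner_eq_zero x w hw.1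
    have a2 : ⟪P.starProjection x, w⟫_ℂ = 0 :=
      Submodule.inner_right_of_mem_orthogonal (Submodule.starProjection_apply_mem P x) hw.2
    have : x - (Q.starProjection x - P.starProjection x)
      = (x - Q.starProjection x) + P.starProjection x := by abel
    rw [this, inner_add_left, a1, a2, add_zero]

theorem norm_proj_tr {U : Submodule ℂ (EE G I)} [U.HasOrthogonalProjection] (hU : W649.ZL.Inv U) (k : G)
    (f : EE G I) : ‖U.starProjection (tr k f)‖ = ‖U.starProjection f‖ := by
  rw [proj_tr hU, norm_tr]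

/-- **The rank inequality.** -/
theorem abstract (k : ℕ) (H : Subgroup G) (y : Fin k → G)
    (hy : ∀ i j, i ≠ j → (y i)⁻¹ * y j ∉ H)
    (X Y : Submodule ℂ (EE G (Fin k))) (hXi : W649.ZL.Inv X) (hYi : W649.ZL.Inv Y)
    (hXc : IsClosed (X : Set (EE G (Fin k)))) (hYc : IsClosed (Y : Set (EE G (Fin k))))
    (hYX : Y ≤ X) (hXr : ∀ F ∈ X, rest H F ∈ X)
    (hYL : ∀ F ∈ Y, ∑ i, F ((y i)⁻¹, i) = 0) :
    vd X ≤ k * (vd X - vd Y) := by
  classical
  have c1 : CompleteSpace X := hXc.completeSpace_coe
  have c2 : CompleteSpace Y := hYc.completeSpace_coe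
  have hZc : IsClosed ((X ⊓ Yᗮ : Submodule ℂ (EE G (Fin k))) : Set (EE G (Fin k))) := by
    rw [Submodule.coe_inf]; exact hXc.inter (Submodule.isClosed_orthogonal Y)
  have c3 : CompleteSpace (X ⊓ Yᗮ : Submodule ℂ (EE G (Fin k))) := hZc.completeSpace_coe
  have hZi : W649.ZL.Inv (X ⊓ Yᗮ) := by
    intro g f hf
    refine ⟨hXi g f hf.1, ?_⟩
    rw [SetLike.mem_coe, Submodule.mem_orthogonal]
    intro z hz
    have h1 : ⟪z, tr g f⟫_ℂ = ⟪tr g⁻¹ z, f⟫_ℂ := by
      rw [inner_tr_left, inv_inv]
    rw [h1]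
    exact (Submodule.mem_orthogonal _ _).1 hf.2 _ (hYi g⁻¹ z hz)
  -- the vector `u`
  set e : Fin k → EE G (Fin k) := fun i => dl ((y i)⁻¹, i) with he
  have hetr : ∀ i, e i = tr (y i) (dl ((1 : G), i)) := by
    intro i
    rw [he, tr_dl, one_mul]
  set u : EE G (Fin k) := ∑ i, e i with hu
  have hdisj : ∀ F ∈ Y, ⟪u, F⟫_ℂ = 0 := by
    intro F hF
    rw [hu, sum_inner]
    rw [← hYL F hF]
    refine Finset.sum_congr rfl fun i _ => ?_
    rw [he, inner_dl_left]
  have hYu : Y.starProjection u = 0 := by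
    rw [Submodule.starProjection_apply_eq_zero_iff, Submodule.mem_orthogonal]
    intro F hF
    rw [← inner_conj_symm, hdisj F hF, map_zero]
  have hZu : (X ⊓ Yᗮ).starProjection u = X.starProjection u := by
    rw [proj_add hYX, hYu, sub_zero]
  -- first computation
  have hXu : ‖X.starProjection u‖ ^ 2 = vd X := by
    rw [norm_sq_star]
    have h1 : ⟪u, X.starProjection u⟫_ℂ = ∑ j, ∑ i, X.starProjection (e j) ((y i)⁻¹, i) := by
      have : X.starProjection u = ∑ j, X.starProjection (e j) := by rw [hu, map_sum]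
      rw [this, inner_sum]
      refine Finset.sum_congr rfl fun j _ => ?_
      rw [hu, sum_inner]
      refine Finset.sum_congr rfl fun i _ => ?_
      rw [he, inner_dl_left]
    have h2 : ∀ j, ∑ i, X.starProjection (e j) ((y i)⁻¹, i)
        = ⟪(dl ((1 : G), j) : EE G (Fin k)), X.starProjection (dl ((1 : G), j))⟫_ℂ := by
      intro j
      rw [Finset.sum_eq_single j]
      · rw [hetr, proj_tr hXi, tr_apply, inner_dl_left]
        simp
      · intro i _ hij
        rw [hetr, proj_tr hXi, tr_apply]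
        exact proj_rest H hXr j _ (hy i j hij)
      · intro h; exact absurd (Finset.mem_univ j) h
    rw [h1, Finset.sum_congr rfl fun j _ => h2 j, Complex.re_sum, vd_eq X X (topcl_eq hXc)]
    refine Finset.sum_congr rfl fun j _ => ?_
    rw [norm_sq_star]
  -- second computation
  have hle : ‖(X ⊓ Yᗮ).starProjection u‖ ^ 2 ≤ k * vd (X ⊓ Yᗮ) := by
    have h1 : (X ⊓ Yᗮ).starProjection u = ∑ j, (X ⊓ Yᗮ).starProjection (e j) := by
      rw [hu, map_sum]
    rw [h1]
    have h2 : ‖∑ j, (X ⊓ Yᗮ).starProjection (e j)‖ ≤ ∑ j, ‖(X ⊓ Yᗮ).starProjection (e j)‖ :=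
      norm_sum_le _ _
    have h3 := sq_sum_le_card_mul_sum_sq (s := (Finset.univ : Finset (Fin k)))
      (f := fun j => ‖(X ⊓ Yᗮ).starProjection (e j)‖)
    have h4 : ∑ j, ‖(X ⊓ Yᗮ).starProjection (e j)‖ ^ 2 = vd (X ⊓ Yᗮ) := by
      rw [vd_eq _ (X ⊓ Yᗮ) (topcl_eq hZc)]
      refine Finset.sum_congr rfl fun j _ => ?_
      rw [hetr, norm_proj_tr hZi]
    rw [h4] at h3
    simp only [Finset.card_univ, Fintype.card_fin] at h3
    exact (pow_le_pow_left₀ (norm_nonneg _) h2 2).trans h3
  rw [hZu, hXu, vd_sub hYc hXc hYX] at hle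
  exact hle

end main

end Pool.Agent.L0h7.UB
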