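import Pool.Agent.L0h7.UB.Rank

/-! # The kernel dimension and the multiplicities of the quotients of the support -/

set_option autoImplicit false
set_option linter.unusedSectionVars false

open scoped InnerProductSpace InnerProduct ENNReal

namespace Pool.Agent.L0h7.UB

open Pool.Agent.W649.ZL

universe u w

section gram

variable {G : Type u} [Group G]

/-- the projection of the basis vector: a positive definite function killed by `α` -/
theorem exists_u (α : G →₀ ℂ) : ∃ u : EE G Unit, u (1, ()) = (kv α : ℂ) ∧ ‖u‖ ^ 2 = kv α ∧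
    ∀ s : G, ∑ t ∈ α.support, (starRingEnd ℂ) (α t) * u (s⁻¹ * t, ()) = 0 := by
  classical
  have hcp := cop_eqv α
  set K := LinearMap.ker (cop α : EE G Unit →ₗ[ℂ] EE G Unit) with hK
  have hKi : W649.ZL.Inv K := inv_ker _ hcp
  have hKc : IsClosed (K : Set (EE G Unit)) := ContinuousLinearMap.isClosed_ker (cop α)
  have c1 : CompleteSpace K := hKc.completeSpace_coe
  have hv : kv α = ‖K.starProjection (dl ((1 : G), ()))‖ ^ 2 := by
    unfold kv
    rw [← hK, vd_eq K K (topcl_eq hKc)]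
    simp
  refine ⟨K.starProjection (dl ((1 : G), ())), ?_, hv.symm, ?_⟩
  · rw [hv, ← inner_dl_left]
    have h1 : ⟪(dl ((1 : G), ()) : EE G Unit) - K.starProjection (dl ((1 : G), ())),
        K.starProjection (dl ((1 : G), ()))⟫_ℂ = 0 :=
      Submodule.starProjection_inner_eq_zero _ _ (Submodule.starProjection_apply_mem K _)
    rw [inner_sub_left, sub_eq_zero] at h1
    rw [h1, inner_self_eq_norm_sq_to_K]
    norm_cast
  · intro s
    set w : EE G Unit := ∑ t ∈ α.support, (starRingEnd ℂ) (α t) • dl (t⁻¹, ()) with hw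
    have h1 : K.starProjection w = 0 := by
      rw [Submodule.starProjection_apply_eq_zero_iff, Submodule.mem_orthogonal]
      intro f hf
      rw [← inner_conj_symm, map_eq_zero, hw, sum_inner]
      have h2 : cop α f (1, ()) = 0 := by
        have : cop α f = 0 := hf
        rw [this]; rfl
      rw [cop_apply] at h2
      rw [← h2]
      refine Finset.sum_congr rfl fun t _ => ?_
      rw [inner_smul_left, inner_dl_left, Complex.conj_conj, mul_one]
    have h3 : K.starProjection w (s⁻¹, ()) = 0 := by rw [h1]; rfl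
    rw [hw, map_sum, sum_apply_EE] at h3
    rw [← h3]
    refine Finset.sum_congr rfl fun t _ => ?_
    rw [map_smul]
    change _ = (starRingEnd ℂ) (α t) * (K.starProjection (dl (t⁻¹, ()))) (s⁻¹, ())
    have h4 : (dl (t⁻¹, ()) : EE G Unit) = tr t (dl ((1 : G), ())) := by rw [tr_dl, one_mul]
    rw [h4, proj_tr hKi, tr_apply]

/-- the number of pairs with a given quotient -/
def mult [DecidableEq G] (T : Finset G) (g : G) : ℕ :=
  ((T ×ˢ T).filter fun p => p.1⁻¹ * p.2 = g).card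

theorem energy [DecidableEq G] (T : Finset G) (u : EE G Unit) (m : ℕ)
    (hm : ∀ g, g ≠ 1 → mult T g ≤ m) :
    ∑ p ∈ T ×ˢ T, ‖u (p.1⁻¹ * p.2, ())‖ ^ 2 ≤
      T.card * ‖u (1, ())‖ ^ 2 + m * (‖u‖ ^ 2 - ‖u (1, ())‖ ^ 2) := by
  classical
  have h1 : ∑ p ∈ T ×ˢ T, ‖u (p.1⁻¹ * p.2, ())‖ ^ 2 =
      ∑ g ∈ (T ×ˢ T).image (fun p => p.1⁻¹ * p.2), mult T g * ‖u (g, ())‖ ^ 2 := by
    rw [Finset.sum_comp (fun g => ‖u (g, ())‖ ^ 2) (fun p : G × G => p.1⁻¹ * p.2)]
    refine Finset.sum_congr rfl fun g _ => ?_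
    rw [nsmul_eq_mul]
    rfl
  rw [h1]
  set S := (T ×ˢ T).image (fun p => p.1⁻¹ * p.2) with hS
  have h2 : ∑ g ∈ S, mult T g * ‖u (g, ())‖ ^ 2 ≤
      mult T 1 * ‖u (1, ())‖ ^ 2 + ∑ g ∈ S.erase 1, mult T g * ‖u (g, ())‖ ^ 2 := by
    by_cases h : (1 : G) ∈ S
    · rw [← Finset.add_sum_erase _ _ h]
    · rw [Finset.erase_eq_of_notMem h]
      have : 0 ≤ (mult T 1 : ℝ) * ‖u (1, ())‖ ^ 2 := by positivity
      linarith
  have h3 : mult T 1 = T.card := by
    unfold mult
    have : ((T ×ˢ T).filter fun p => p.1⁻¹ * p.2 = 1) = T.image (fun t => (t, t)) := by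
      ext ⟨a, b⟩
      simp only [Finset.mem_filter, Finset.mem_product, Finset.mem_image, Prod.mk.injEq,
        inv_mul_eq_one]
      constructor
      · rintro ⟨⟨ha, _⟩, rfl⟩
        exact ⟨a, ha, rfl, rfl⟩
      · rintro ⟨t, ht, rfl, rfl⟩
        exact ⟨⟨ht, ht⟩, rfl⟩
    rw [this, Finset.card_image_of_injective]
    intro a b hab
    exact (Prod.ext_iff.1 hab).1
  have h4 : ∑ g ∈ S.erase 1, (mult T g : ℝ) * ‖u (g, ())‖ ^ 2 ≤
      m * ∑ g ∈ S.erase 1, ‖u (g, ())‖ ^ 2 := by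
    rw [Finset.mul_sum]
    refine Finset.sum_le_sum fun g hg => ?_
    have h5 : (mult T g : ℝ) ≤ m := by exact_mod_cast hm g (Finset.ne_of_mem_erase hg)
    exact mul_le_mul_of_nonneg_right h5 (by positivity)
  have h6 : ∑ g ∈ S.erase 1, ‖u (g, ())‖ ^ 2 ≤ ‖u‖ ^ 2 - ‖u (1, ())‖ ^ 2 := by
    have h7 : HasSum (fun x : G × Unit => ‖u x‖ ^ 2) (‖u‖ ^ 2) := by
      have h := lp.hasSum_norm (p := 2) (by norm_num) u
      simpa using h
    have h8 := sum_le_hasSum ((insert 1 (S.erase 1)).image (fun g : G => (g, ())))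
      (fun _ _ => by positivity) h7
    rw [Finset.sum_image (fun a _ b _ hab => (Prod.ext_iff.1 hab).1),
      Finset.sum_insert (Finset.notMem_erase 1 S)] at h8
    linarith
  have h9 : (m : ℝ) * ∑ g ∈ S.erase 1, ‖u (g, ())‖ ^ 2 ≤ m * (‖u‖ ^ 2 - ‖u (1, ())‖ ^ 2) :=
    mul_le_mul_of_nonneg_left h6 (by positivity)
  rw [h3] at h2
  linarith

/-- **The Gram matrix inequality.** -/
theorem gram [DecidableEq G] (α : G →₀ ℂ) (hα : α ≠ 0) (m : ℕ)
    (hm : ∀ g, g ≠ 1 → mult α.support g ≤ m) :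
    kv α * (m * (α.support.card - 1) + α.support.card) ≤ m * (α.support.card - 1) := by
  classical
  obtain ⟨u, hu1, hu2, hu3⟩ := exists_u α
  set T := α.support with hT
  have hne : T.Nonempty := Finsupp.support_nonempty_iff.2 hα
  set n : ℝ := (T.card : ℝ) with hn
  have hn1 : 1 ≤ n := by
    rw [hn]; exact_mod_cast Finset.card_pos.2 hne
  set d := kv α with hd
  have hd0 : 0 ≤ d := vd_nonneg _
  set S : ℝ := ∑ t ∈ T, ‖α t‖ ^ 2 with hS
  have hS0 : 0 < S := Finset.sum_pos (fun t ht => by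
    have := Finsupp.mem_support_iff.1 ht
    positivity) hne
  set c : G → ℂ := fun t => (starRingEnd ℂ) (α t) with hc
  set Pj : G → G → ℂ := fun s t => (if s = t then 1 else 0) - c s * (starRingEnd ℂ) (c t) / S with hPj
  -- the trace
  have htr : ∑ p ∈ T ×ˢ T, (starRingEnd ℂ) (Pj p.1 p.2) * u (p.1⁻¹ * p.2, ()) = ((n * d : ℝ) : ℂ) := by
    rw [Finset.sum_product]
    have h1 : ∀ s ∈ T, ∑ t ∈ T, (starRingEnd ℂ) (Pj s t) * u (s⁻¹ * t, ()) = (d : ℂ) := by
      intro s hs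
      have h2 : ∀ t ∈ T, (starRingEnd ℂ) (Pj s t) * u (s⁻¹ * t, ()) =
          (if s = t then u (s⁻¹ * t, ()) else 0) -
            ((starRingEnd ℂ) (c s) / S) * ((starRingEnd ℂ) (α t) * u (s⁻¹ * t, ())) := by
        intro t _
        simp only [hPj, hc, map_sub, map_div₀, map_mul, Complex.conj_conj, Complex.conj_ofReal]
        split_ifs
        · rw [map_one]; ring
        · rw [map_zero]; ring
      rw [Finset.sum_congr rfl h2, Finset.sum_sub_distrib, ← Finset.mul_sum, hu3 s, mul_zero,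
        sub_zero, Finset.sum_ite_eq, if_pos hs, inv_mul_cancel, hu1]
    rw [Finset.sum_congr rfl h1, Finset.sum_const, nsmul_eq_mul]
    push_cast
    rfl
  -- the norm of the projection
  have hP : ∑ p ∈ T ×ˢ T, ‖Pj p.1 p.2‖ ^ 2 = n - 1 := by
    have h1 : ∀ s t, ((‖Pj s t‖ ^ 2 : ℝ) : ℂ) = (if s = t then 1 else 0) -
        (if s = t then (2 * ‖α s‖ ^ 2 / S : ℂ) else 0) + (‖α s‖ ^ 2 : ℂ) * ‖α t‖ ^ 2 / S ^ 2 := by
      intro s t
      have h2 : ((‖Pj s t‖ ^ 2 : ℝ) : ℂ) = (starRingEnd ℂ) (Pj s t) * Pj s t := by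
        rw [Complex.conj_mul']
        push_cast
        rfl
      have h3 : ∀ x : G, α x * (starRingEnd ℂ) (α x) = (‖α x‖ : ℂ) ^ 2 := fun x =>
        Complex.mul_conj' _
      have hSc : (S : ℂ) ≠ 0 := by exact_mod_cast hS0.ne'
      rw [h2]
      simp only [hPj, hc, map_sub, map_div₀, map_mul, Complex.conj_conj, Complex.conj_ofReal]
      by_cases hst : s = t
      · subst hst
        simp only [if_true, map_one]
        have h4 : (1 - α s * (starRingEnd ℂ) (α s) / S) * (1 - (starRingEnd ℂ) (α s) * α s / S) =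
            (1 : ℂ) - 2 * (α s * (starRingEnd ℂ) (α s)) / S +
              (α s * (starRingEnd ℂ) (α s)) * (α s * (starRingEnd ℂ) (α s)) / S ^ 2 := by
          field_simp
          ring
        rw [h4, h3]
      · simp only [if_neg hst, map_zero]
        have h4 : (0 - α s * (starRingEnd ℂ) (α t) / S) * (0 - (starRingEnd ℂ) (α s) * α t / S) =
            (0 : ℂ) - 0 + (α s * (starRingEnd ℂ) (α s)) * (α t * (starRingEnd ℂ) (α t)) / S ^ 2 := by
          field_simp
          ring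
        rw [h4, h3, h3]
    have h5 : ((∑ p ∈ T ×ˢ T, ‖Pj p.1 p.2‖ ^ 2 : ℝ) : ℂ) = ((n - 1 : ℝ) : ℂ) := by
      rw [Complex.ofReal_sum, Finset.sum_product]
      have h6 : ∀ s ∈ T, ∑ t ∈ T, ((‖Pj s t‖ ^ 2 : ℝ) : ℂ) = 1 - 2 * ‖α s‖ ^ 2 / S +
          (‖α s‖ ^ 2 : ℂ) / S := by
        intro s hs
        rw [Finset.sum_congr rfl fun t _ => h1 s t, Finset.sum_add_distrib,
          Finset.sum_sub_distrib, Finset.sum_ite_eq, Finset.sum_ite_eq, if_pos hs, if_pos hs]
        congr 1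
        rw [← Finset.sum_div, ← Finset.mul_sum]
        have h7 : (∑ t ∈ T, (‖α t‖ : ℂ) ^ 2) = (S : ℂ) := by
          rw [hS]; push_cast; rfl
        rw [h7]
        have hSc : (S : ℂ) ≠ 0 := by exact_mod_cast hS0.ne'
        field_simp
      rw [Finset.sum_congr rfl h6, Finset.sum_add_distrib, Finset.sum_sub_distrib, ← Finset.sum_div,
        ← Finset.sum_div, ← Finset.mul_sum]
      have h7 : (∑ t ∈ T, (‖α t‖ : ℂ) ^ 2) = (S : ℂ) := by
        rw [hS]; push_cast; rfl
      rw [h7]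
      have hSc : (S : ℂ) ≠ 0 := by exact_mod_cast hS0.ne'
      rw [Finset.sum_const, nsmul_eq_mul, mul_one]
      push_cast
      rw [hn]
      push_cast
      field_simp
      ring
    exact_mod_cast h5
  -- Cauchy-Schwarz
  have hCS : (n * d) ^ 2 ≤ (n - 1) * ∑ p ∈ T ×ˢ T, ‖u (p.1⁻¹ * p.2, ())‖ ^ 2 := by
    have h1 : n * d ≤ ∑ p ∈ T ×ˢ T, ‖Pj p.1 p.2‖ * ‖u (p.1⁻¹ * p.2, ())‖ := by
      have h2 : ‖((n * d : ℝ) : ℂ)‖ = n * d := by
        rw [Complex.norm_real, Real.norm_of_nonneg (by positivity)]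
      rw [← h2, ← htr]
      refine (norm_sum_le _ _).trans (le_of_eq ?_)
      refine Finset.sum_congr rfl fun p _ => ?_
      rw [norm_mul, RCLike.norm_conj]
    have h3 := Finset.sum_mul_sq_le_sq_mul_sq (T ×ˢ T) (fun p : G × G => ‖Pj p.1 p.2‖)
      (fun p => ‖u (p.1⁻¹ * p.2, ())‖)
    rw [hP] at h3
    exact (pow_le_pow_left₀ (by positivity) h1 2).trans h3
  have hen := energy T u m hm
  have hu1' : ‖u (1, ())‖ = d := by
    rw [hu1, Complex.norm_real, Real.norm_of_nonneg hd0]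
  rw [hu1', hu2] at hen
  have h1 : (n * d) ^ 2 ≤ (n - 1) * (n * d ^ 2 + m * (d - d ^ 2)) :=
    hCS.trans (mul_le_mul_of_nonneg_left hen (by linarith))
  by_cases hd1 : d = 0
  · rw [hd1, zero_mul]
    have : 0 ≤ n - 1 := by linarith
    positivity
  · have hdpos : 0 < d := lt_of_le_of_ne hd0 (Ne.symm hd1)
    have h2 : d * (n ^ 2 * d) ≤ d * ((n - 1) * (n * d + m * (1 - d))) := by nlinarith
    have h3 := le_of_mul_le_mul_left h2 hdpos
    nlinarith

end gram

end Pool.Agent.L0h7.UB
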