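import Pool.Agent.L0h7.UB.Gram
import Pool.Agent.N17.BZ.Cor

/-! # Kernel dimensions over torsion-free groups -/

set_option autoImplicit false
set_option linter.unusedSectionVars false

open scoped InnerProductSpace InnerProduct ENNReal

namespace Pool.Agent.L0h7.UB

open Pool.Agent.W649.ZL

universe u w

section main

variable {G : Type u} [Group G]

open Classical in
/-- The number of the left cosets of `H` which meet the support of `α`. -/
noncomputable def cosetsOf (H : Subgroup G) (α : G →₀ ℂ) : ℕ :=
  (α.support.image (QuotientGroup.mk : G → G ⧸ H)).card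

theorem cosets' (H : Subgroup G) (hH : LI H) (α : G →₀ ℂ) (hα : α ≠ 0) :
    1 ≤ (cosetsOf H α : ℝ) * (1 - kv α) := by
  classical
  set S := α.support.image (QuotientGroup.mk : G → G ⧸ H) with hS
  set e : Fin S.card ≃ S := S.equivFin.symm with he
  have h := cosets (k := S.card) H (fun i => ((e i : G ⧸ H)).out) α hH hα
    (fun i j hij h => by
      apply hij
      apply e.injective
      apply Subtype.ext
      have h1 := QuotientGroup.eq.2 h
      rw [QuotientGroup.out_eq', QuotientGroup.out_eq'] at h1
      exact h1)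
    (fun x hx => by
      have hx' : (QuotientGroup.mk x : G ⧸ H) ∈ S := Finset.mem_image_of_mem _ hx
      refine ⟨e.symm ⟨_, hx'⟩, ?_⟩
      apply QuotientGroup.eq.1
      rw [QuotientGroup.out_eq', Equiv.apply_symm_apply])
  exact h

/-- the number of the cosets of `⟨g⟩` is at most the number of elements minus the multiplicity of `g` -/
theorem cosets_card [DecidableEq G] (g : G) (hg : ¬ IsOfFinOrder g) (α : G →₀ ℂ) :
    cosetsOf (Subgroup.zpowers g) α + mult α.support g ≤ α.support.card := by
  classical
  set T := α.support with hT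
  have h1 : mult T g = (T.filter fun s => s * g ∈ T).card := by
    unfold mult
    have : ((T ×ˢ T).filter fun p => p.1⁻¹ * p.2 = g) =
        (T.filter fun s => s * g ∈ T).image (fun s => (s, s * g)) := by
      ext ⟨a, b⟩
      simp only [Finset.mem_filter, Finset.mem_product, Finset.mem_image, Prod.mk.injEq]
      constructor
      · rintro ⟨⟨ha, hb⟩, h⟩
        have h2 : b = a * g := by rw [← h]; group
        exact ⟨a, ⟨ha, h2 ▸ hb⟩, rfl, h2.symm⟩
      · rintro ⟨s, ⟨hs, hsg⟩, rfl, rfl⟩
        exact ⟨⟨hs, hsg⟩, by group⟩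
    rw [this, Finset.card_image_of_injective]
    intro a b hab
    exact (Prod.ext_iff.1 hab).1
  have h2 : (T.filter fun s => s * g ∈ T).card + (T.filter fun s => ¬ s * g ∈ T).card = T.card :=
    Finset.card_filter_add_card_filter_not _
  have h3 : cosetsOf (Subgroup.zpowers g) α ≤ (T.filter fun s => ¬ s * g ∈ T).card := by
    unfold cosetsOf
    have h4 : T.image (QuotientGroup.mk : G → G ⧸ Subgroup.zpowers g) ⊆
        (T.filter fun s => ¬ s * g ∈ T).image (QuotientGroup.mk : G → G ⧸ Subgroup.zpowers g) := by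
      intro c hc
      obtain ⟨x, hx, rfl⟩ := Finset.mem_image.1 hc
      -- the last power
      have h5 : ∃ n : ℕ, x * g ^ n ∉ T := by
        by_contra hcon
        push Not at hcon
        have hinj : Function.Injective (fun n : ℕ => x * g ^ n) := by
          intro a b hab
          exact (injective_pow_iff_not_isOfFinOrder.2 hg) (mul_left_cancel hab)
        have hfin : (Set.range (fun n : ℕ => x * g ^ n)).Finite :=
          T.finite_toSet.subset (by rintro _ ⟨n, rfl⟩; exact hcon n)
        exact Set.infinite_range_of_injective hinj hfin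
      have h6 := Nat.find_spec h5
      have h7 : Nat.find h5 ≠ 0 := by
        intro h0
        rw [h0, pow_zero, mul_one] at h6
        exact h6 hx
      obtain ⟨n, hn⟩ := Nat.exists_eq_succ_of_ne_zero h7
      have h8 : x * g ^ n ∈ T := by
        by_contra hcon
        have := Nat.find_min' h5 hcon
        omega
      refine Finset.mem_image.2 ⟨x * g ^ n, Finset.mem_filter.2 ⟨h8, ?_⟩, ?_⟩
      · rw [hn, Nat.succ_eq_add_one, pow_succ, ← mul_assoc] at h6
        exact h6
      · apply QuotientGroup.eq.2
        have : (x * g ^ n)⁻¹ * x = (g ^ n)⁻¹ := by group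
        rw [this]
        exact Subgroup.inv_mem _ (Subgroup.npow_mem_zpowers g n)
    exact (Finset.card_le_card h4).trans Finset.card_image_le
  rw [h1]
  omega

theorem tf_bound (hG : ∀ g : G, ∀ k : ℕ, 0 < k → g ^ k = 1 → g = 1) (α : G →₀ ℂ) (hα : α ≠ 0) :
    kv α ≤ ((α.support.card : ℝ) - 1) ^ 2 / ((α.support.card : ℝ) ^ 2 + 1) ∧
    (α.support.card ≤ 4 → kv α ≤ 1 / 2) := by
  classical
  have hfo : ∀ g : G, g ≠ 1 → ¬ IsOfFinOrder g := by
    intro g hg h
    obtain ⟨n, hn, h1⟩ := isOfFinOrder_iff_pow_eq_one.1 h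
    exact hg (hG g n hn h1)
  set T := α.support with hT
  have hne : T.Nonempty := Finsupp.support_nonempty_iff.2 hα
  have hkv0 : 0 ≤ kv α := vd_nonneg _
  set n : ℝ := (T.card : ℝ) with hn
  have hn1 : 1 ≤ n := by
    rw [hn]; exact_mod_cast Finset.card_pos.2 hne
  -- the largest multiplicity
  obtain ⟨m, hm, hm'⟩ : ∃ m : ℕ, (∀ g, g ≠ 1 → mult T g ≤ m) ∧
      (m = 0 ∨ ∃ g, g ≠ 1 ∧ mult T g = m) := by
    set S := ((T ×ˢ T).image (fun p => p.1⁻¹ * p.2)).erase 1 with hS
    have hz : ∀ g, g ≠ 1 → g ∉ S → mult T g = 0 := by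
      intro g hg hgS
      unfold mult
      rw [Finset.card_eq_zero, Finset.filter_eq_empty_iff]
      intro p hp h
      exact hgS (Finset.mem_erase.2 ⟨hg, Finset.mem_image.2 ⟨p, hp, h⟩⟩)
    rcases S.eq_empty_or_nonempty with h | h
    · exact ⟨0, fun g hg => (hz g hg (by rw [h]; simp)).le, Or.inl rfl⟩
    · obtain ⟨g, hgS, hmax⟩ := S.exists_max_image (mult T) h
      refine ⟨mult T g, fun g' hg' => ?_, Or.inr ⟨g, Finset.ne_of_mem_erase hgS, rfl⟩⟩
      by_cases h' : g' ∈ S
      · exact hmax g' h'
      · rw [hz g' hg' h']; exact Nat.zero_le _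
  have hgram := gram α hα m hm
  rw [← hT, ← hn] at hgram
  -- the bound from the cosets
  have hcos : m = 0 ∨ 1 ≤ (n - m) * (1 - kv α) := by
    rcases hm' with h | ⟨g, hg1, hgm⟩
    · exact Or.inl h
    · right
      have h1 := cosets' (Subgroup.zpowers g) (N17.BZ.LI_zpowers (hfo g hg1)) α hα
      have h2 := cosets_card g (hfo g hg1) α
      rw [← hT, hgm] at h2
      have h3 : ((cosetsOf (Subgroup.zpowers g) α : ℝ)) ≤ n - m := by
        have : ((cosetsOf (Subgroup.zpowers g) α : ℝ)) + m ≤ n := by
          rw [hn]; exact_mod_cast h2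
        linarith
      have h4 : 0 < 1 - kv α := by
        by_contra hcon
        push Not at hcon
        have : (cosetsOf (Subgroup.zpowers g) α : ℝ) * (1 - kv α) ≤ 0 :=
          mul_nonpos_of_nonneg_of_nonpos (by positivity) hcon
        linarith
      exact h1.trans (mul_le_mul_of_nonneg_right h3 h4.le)
  -- the two cases
  have key : ∀ M : ℝ, (m : ℝ) ≤ M → kv α * (M * (n - 1) + n) ≤ M * (n - 1) := by
    intro M hM
    have h1 : kv α ≤ 1 := by
      by_contra hcon
      push Not at hcon
      have h2 : (0 : ℝ) ≤ m * (n - 1) := mul_nonneg (by positivity) (by linarith)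
      nlinarith
    have h2 : kv α * n ≤ m * (n - 1) * (1 - kv α) := by nlinarith
    have h3 : m * (n - 1) * (1 - kv α) ≤ M * (n - 1) * (1 - kv α) :=
      mul_le_mul_of_nonneg_right (mul_le_mul_of_nonneg_right hM (by linarith)) (by linarith)
    nlinarith
  by_cases hc : 2 * m ≤ T.card - 1
  · have hM : (m : ℝ) ≤ (n - 1) / 2 := by
      have h1 : 2 * m + 1 ≤ T.card := by
        have := Finset.card_pos.2 hne
        omega
      have h2 : (2 : ℝ) * m + 1 ≤ n := by rw [hn]; exact_mod_cast h1
      linarith
    refine ⟨?_, fun h4 => ?_⟩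
    · rw [le_div_iff₀ (by positivity)]
      have := key _ hM
      nlinarith
    · have hm1 : (m : ℝ) ≤ 1 := by
        have : m ≤ 1 := by omega
        exact_mod_cast this
      have := key 1 hm1
      nlinarith
  · have hM : n ≤ 2 * m := by
      have h1 : T.card ≤ 2 * m := by omega
      rw [hn]; exact_mod_cast h1
    have hm0 : m ≠ 0 := by
      rintro rfl
      have : n ≤ 0 := by simpa using hM
      linarith
    have h1 := hcos.resolve_left hm0
    have h2 : 0 < 1 - kv α := by
      by_contra hcon
      push Not at hcon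
      have hkey := key _ le_rfl
      have h2 : (0 : ℝ) ≤ m * (n - 1) := mul_nonneg (by positivity) (by linarith)
      nlinarith
    have h3 : 1 ≤ (n / 2) * (1 - kv α) := h1.trans (mul_le_mul_of_nonneg_right (by linarith) h2.le)
    refine ⟨?_, fun h4 => ?_⟩
    · rw [le_div_iff₀ (by positivity)]
      have h5 : kv α * n ≤ n - 2 := by nlinarith
      have h6 : n * (kv α * (n ^ 2 + 1)) ≤ n * (n - 1) ^ 2 := by
        have h7 : n * (kv α * (n ^ 2 + 1)) ≤ (n - 2) * (n ^ 2 + 1) := by nlinarith [sq_nonneg n]
        nlinarith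
      exact le_of_mul_le_mul_left h6 (by linarith)
    · have h5 : n ≤ 4 := by rw [hn]; exact_mod_cast h4
      nlinarith

end main

end Pool.Agent.L0h7.UB
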