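import Pool.Agent.L0h7.UB.Cos
import Pool.Agent.W649.ZL.Fam

/-! # Elements supported on `k` cosets of a locally indicable subgroup -/

set_option autoImplicit false
set_option linter.unusedSectionVars false

open scoped InnerProductSpace InnerProduct ENNReal

namespace Pool.Agent.L0h7.UB

open Pool.Agent.W649.ZL

universe u w

section main

variable {G : Type u} [Group G]

/-- the von Neumann dimension of the kernel of `α` -/
noncomputable def kv (α : G →₀ ℂ) : ℝ :=
  vd (LinearMap.ker (cop α : EE G Unit →ₗ[ℂ] EE G Unit))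

variable {k : ℕ} (H : Subgroup G) (y : Fin k → G) (α : G →₀ ℂ)

open Classical in
/-- the part of `α` on the coset `y i H`, translated to `H` -/
noncomputable def pt (i : Fin k) : G →₀ ℂ :=
  ∑ x ∈ α.support, if (y i)⁻¹ * x ∈ H then Finsupp.single ((y i)⁻¹ * x) (α x) else 0

open Classical in
/-- `f ↦ (p_i f)` -/
noncomputable def Jop : EE G Unit →L[ℂ] EE G (Fin k) :=
  ∑ i, ∑ x ∈ α.support, if (y i)⁻¹ * x ∈ H then α x • elem ((y i)⁻¹ * x) i () else 0

open Classical in
theorem Jop_eqv : Eqv (Jop H y α) := by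
  intro g f
  have h1 : ∀ (s : Finset (Fin k)) (A : Fin k → EE G Unit →L[ℂ] EE G (Fin k)),
      (∀ i, Eqv (A i)) → Eqv (∑ i ∈ s, A i) := by
    intro s A hA g f
    rw [ContinuousLinearMap.sum_apply, ContinuousLinearMap.sum_apply]
    rw [Finset.sum_congr rfl fun i _ => hA i g f]
    induction s using Finset.induction_on with
    | empty => simp [tr_zero]
    | insert a s ha ih => rw [Finset.sum_insert ha, Finset.sum_insert ha, ih, tr_add]
  refine h1 _ _ (fun i => ?_) g f
  intro g f
  rw [ContinuousLinearMap.sum_apply, ContinuousLinearMap.sum_apply]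
  have h2 : ∀ x ∈ α.support, (if (y i)⁻¹ * x ∈ H then α x • elem ((y i)⁻¹ * x) i () else
      (0 : EE G Unit →L[ℂ] EE G (Fin k))) (tr g f) =
      tr g ((if (y i)⁻¹ * x ∈ H then α x • elem ((y i)⁻¹ * x) i () else
      (0 : EE G Unit →L[ℂ] EE G (Fin k))) f) := by
    intro x _
    split_ifs
    · rw [ContinuousLinearMap.smul_apply, ContinuousLinearMap.smul_apply, elem_eqv, tr_smul]
    · simp [tr_zero]
  rw [Finset.sum_congr rfl h2]
  induction α.support using Finset.induction_on with
  | empty => simp [tr_zero]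
  | insert a s ha ih => rw [Finset.sum_insert ha, Finset.sum_insert ha, ih, tr_add]

open Classical in
theorem Jop_apply (f : EE G Unit) (g : G) (i : Fin k) : Jop H y α f (g, i) =
    ∑ x ∈ α.support, if (y i)⁻¹ * x ∈ H then α x * f (((y i)⁻¹ * x)⁻¹ * g, ()) else 0 := by
  unfold Jop
  rw [ContinuousLinearMap.sum_apply, sum_apply_EE, Finset.sum_eq_single i]
  · rw [ContinuousLinearMap.sum_apply, sum_apply_EE]
    refine Finset.sum_congr rfl fun x _ => ?_
    split_ifs
    · change α x * (elem ((y i)⁻¹ * x) i () f) (g, i) = _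
      rw [elem_apply, if_pos rfl]
    · rfl
  · intro i' _ hi
    rw [ContinuousLinearMap.sum_apply, sum_apply_EE]
    refine Finset.sum_eq_zero fun x _ => ?_
    split_ifs
    · change α x * (elem ((y i')⁻¹ * x) i' () f) (g, i) = _
      rw [elem_apply, if_neg (Ne.symm hi), mul_zero]
    · rfl
  · intro h; exact absurd (Finset.mem_univ i) h

open Classical in
theorem cop_pt (i : Fin k) (f : EE G Unit) (g : G) : cop (pt H y α i) f (g, ()) =
    ∑ x ∈ α.support, if (y i)⁻¹ * x ∈ H then α x * f (((y i)⁻¹ * x)⁻¹ * g, ()) else 0 := by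
  unfold pt
  rw [map_sum, ContinuousLinearMap.sum_apply, sum_apply_EE]
  refine Finset.sum_congr rfl fun x _ => ?_
  split_ifs
  · rw [cop_single]
    rfl
  · rw [map_zero]; rfl

open Classical in
theorem pt_support (i : Fin k) : ∀ x ∈ (pt H y α i).support, x ∈ H := by
  intro x hx
  by_contra hne
  apply Finsupp.mem_support_iff.1 hx
  unfold pt
  rw [Finsupp.finsetSum_apply]
  refine Finset.sum_eq_zero fun z _ => ?_
  split_ifs with h
  · rw [Finsupp.single_apply, if_neg]
    rintro rfl
    exact hne h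
  · rfl

open Classical in
theorem pt_ne_zero (i : Fin k) (x : G) (hx : x ∈ α.support) (h : (y i)⁻¹ * x ∈ H) :
    pt H y α i ≠ 0 := by
  intro h0
  have h1 := congrArg (fun F : G →₀ ℂ => F ((y i)⁻¹ * x)) h0
  unfold pt at h1
  simp only [Finsupp.finsetSum_apply, Finsupp.coe_zero, Pi.zero_apply] at h1
  rw [Finset.sum_eq_single x] at h1
  · rw [if_pos h, Finsupp.single_eq_same] at h1
    exact (Finsupp.mem_support_iff.1 hx) h1
  · intro z _ hz
    split_ifs
    · rw [Finsupp.single_apply, if_neg]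
      intro h2
      exact hz (mul_left_cancel h2)
    · rfl
  · intro h2; exact absurd hx h2

/-- **Rank and cosets.** If the support of `α ≠ 0` meets only `k` left cosets `y i H` of the
locally indicable subgroup `H` then `1 ≤ k (1 - dim ker α)`. -/
theorem cosets (hH : LI H) (hα : α ≠ 0) (hy : ∀ i j, i ≠ j → (y i)⁻¹ * y j ∉ H)
    (hs : ∀ x ∈ α.support, ∃ i, (y i)⁻¹ * x ∈ H) : 1 ≤ k * (1 - kv α) := by
  classical
  obtain ⟨x0, hx0⟩ := Finsupp.support_nonempty_iff.2 hα
  obtain ⟨i0, hi0⟩ := hs x0 hx0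
  set J := Jop H y α with hJ
  have hJe : Eqv J := Jop_eqv H y α
  have hcp := cop_eqv α
  -- `J` is injective
  have hJinj : Function.Injective J := by
    rw [injective_iff_map_eq_zero]
    intro f hf
    have h1 : cop (pt H y α i0) f = 0 := by
      ext ⟨g, u⟩
      rw [cop_pt, ← Jop_apply, ← hJ, hf]
      rfl
    have h2 := LI_subgroup_injective H hH _ (pt_support H y α i0) (pt_ne_zero H y α i0 x0 hx0 hi0)
    exact h2 (by rw [h1, map_zero])
  set K := LinearMap.ker (cop α : EE G Unit →ₗ[ℂ] EE G Unit) with hK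
  have hKi : W649.ZL.Inv K := inv_ker _ hcp
  have hKc : IsClosed (K : Set (EE G Unit)) := ContinuousLinearMap.isClosed_ker (cop α)
  set X := (LinearMap.range (J : EE G Unit →ₗ[ℂ] EE G (Fin k))).topologicalClosure with hX
  set Y := (K.map (J : EE G Unit →ₗ[ℂ] EE G (Fin k))).topologicalClosure with hY
  have hRi : W649.ZL.Inv (LinearMap.range (J : EE G Unit →ₗ[ℂ] EE G (Fin k))) := by
    rintro g _ ⟨f, rfl⟩
    exact ⟨tr g f, hJe g f⟩
  have hMi : W649.ZL.Inv (K.map (J : EE G Unit →ₗ[ℂ] EE G (Fin k))) := by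
    rintro g _ ⟨f, hf, rfl⟩
    exact ⟨tr g f, hKi g f hf, hJe g f⟩
  have hvX : vd X = 1 := by
    rw [hX, vd_closure]
    have h1 := rank_nullity J hJe (U := ⊤) (fun _ _ _ => trivial) isClosed_univ
    rw [vd_top, Submodule.map_top, top_inf_eq, LinearMap.ker_eq_bot.2 hJinj, vd_bot] at h1
    simpa using h1.symm
  have hvY : vd Y = kv α := by
    rw [hY, vd_closure]
    have h1 := rank_nullity J hJe hKi hKc
    rw [LinearMap.ker_eq_bot.2 hJinj, inf_bot_eq, vd_bot, zero_add] at h1
    exact h1.symm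
  -- restriction
  have hrange : ∀ F ∈ LinearMap.range (J : EE G Unit →ₗ[ℂ] EE G (Fin k)),
      rest H F ∈ LinearMap.range (J : EE G Unit →ₗ[ℂ] EE G (Fin k)) := by
    rintro _ ⟨f, rfl⟩
    refine ⟨rest H f, ?_⟩
    ext ⟨g, i⟩
    change Jop H y α (rest H f) (g, i) = rest H (Jop H y α f) (g, i)
    rw [rest_apply, Jop_apply, Jop_apply]
    by_cases hg : g ∈ H
    · rw [if_pos hg]
      refine Finset.sum_congr rfl fun x _ => ?_
      split_ifs with h
      · rw [rest_apply, if_pos (H.mul_mem (H.inv_mem h) hg)]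
      · rfl
    · rw [if_neg hg]
      refine Finset.sum_eq_zero fun x _ => ?_
      split_ifs with h
      · rw [rest_apply, if_neg, mul_zero]
        intro h1
        apply hg
        have h2 := H.mul_mem h h1
        rwa [mul_inv_cancel_left] at h2
      · rfl
  have hXr := rest_closure H hrange
  -- the kernel condition
  have hKsum : ∀ F ∈ K.map (J : EE G Unit →ₗ[ℂ] EE G (Fin k)), ∑ i, F ((y i)⁻¹, i) = 0 := by
    rintro _ ⟨f, hf, rfl⟩
    have hf' : cop α f (1, ()) = 0 := by
      have : cop α f = 0 := hf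
      rw [this]; rfl
    rw [cop_apply] at hf'
    change ∑ i, Jop H y α f ((y i)⁻¹, i) = 0
    have hJa : ∀ i, Jop H y α f ((y i)⁻¹, i) = ∑ x ∈ α.support,
        if (y i)⁻¹ * x ∈ H then α x * f (((y i)⁻¹ * x)⁻¹ * (y i)⁻¹, ()) else 0 :=
      fun i => Jop_apply H y α f _ i
    rw [← hf', Fintype.sum_congr _ _ hJa, Finset.sum_comm]
    refine Finset.sum_congr rfl fun x hx => ?_
    obtain ⟨i1, hi1⟩ := hs x hx
    rw [Finset.sum_eq_single i1]
    · rw [if_pos hi1]
      congr 3
      group
    · intro i _ hi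
      rw [if_neg]
      intro h
      apply hy i1 i (Ne.symm hi)
      have h2 := H.mul_mem hi1 (H.inv_mem h)
      have h3 : (y i1)⁻¹ * x * ((y i)⁻¹ * x)⁻¹ = (y i1)⁻¹ * y i := by group
      rwa [h3] at h2
    · intro h; exact absurd (Finset.mem_univ i1) h
  have hYsum : ∀ F ∈ Y, ∑ i, F ((y i)⁻¹, i) = 0 := by
    have hcl : IsClosed {F : EE G (Fin k) | ∑ i, F ((y i)⁻¹, i) = 0} := by
      have h1 : {F : EE G (Fin k) | ∑ i, F ((y i)⁻¹, i) = 0} =
          {F : EE G (Fin k) | ∑ i, ⟪(dl ((y i)⁻¹, i) : EE G (Fin k)), F⟫_ℂ = 0} := by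
        ext F
        simp only [Set.mem_setOf_eq, inner_dl_left]
      rw [h1]
      exact isClosed_eq (continuous_finsetSum _ fun i _ => by fun_prop) continuous_const
    intro F hF
    have h2 : F ∈ closure ((K.map (J : EE G Unit →ₗ[ℂ] EE G (Fin k)) :
        Submodule ℂ (EE G (Fin k))) : Set (EE G (Fin k))) := by
      rw [← Submodule.topologicalClosure_coe]; exact hF
    exact (closure_minimal (fun F hF => hKsum F hF) hcl) h2
  have h := abstract k H y hy X Y hRi.topologicalClosure hMi.topologicalClosure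
    (Submodule.isClosed_topologicalClosure _) (Submodule.isClosed_topologicalClosure _)
    (Submodule.topologicalClosure_mono (LinearMap.map_le_range)) hXr hYsum
  rw [hvX, hvY] at h
  exact h

end main

end Pool.Agent.L0h7.UB
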